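import Pool.Agent.H32.CL.Sum

/-!
# All clusters except one cancel exactly
-/

set_option autoImplicit false

namespace Pool.Agent.H32.CL

open Finset LaurentPolynomial Pool.Agent.H891R2.Jones Pool.Agent.H891R2.MT Pool.Agent.H891R2.SI T4b
open Pool.Agent.Y463.CD (zf brk brk_mul ev8_brk expand delta_ne zf_add zf_zero Close ev8 ev8_d ev8_zf cluster 
  SIn_zf_mul zeta8_ne coeff_add' ne_zero_coeff)
open Pool.Agent.Q99.ET

variable {k : ℕ}

/-- the unit `exp(π i/3)` -/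
noncomputable def z6 : ℂˣ := Units.mk0 (Complex.exp (Real.pi / 3 * Complex.I)) (Complex.exp_ne_zero _)

theorem z6_quad : (z6 : ℂ) ^ 2 - z6 + 1 = 0 := by
  have h3 : (z6 : ℂ) ^ 3 = -1 := by
    unfold z6
    rw [Units.val_mk0, ← Complex.exp_nat_mul]
    have : ((3 : ℕ) : ℂ) * (Real.pi / 3 * Complex.I) = Real.pi * Complex.I := by push_cast; ring
    rw [this, Complex.exp_pi_mul_I]
  have h1 : (z6 : ℂ) + 1 ≠ 0 := by
    intro h
    have h2 := congrArg Complex.re h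
    have h4 : (z6 : ℂ).re = 1 / 2 := by
      unfold z6
      rw [Units.val_mk0]
      have : (Real.pi / 3 * Complex.I : ℂ) = ((Real.pi / 3 : ℝ) : ℂ) * Complex.I := by push_cast; ring
      rw [this, Complex.exp_ofReal_mul_I_re, Real.cos_pi_div_three]
    rw [Complex.add_re, h4, Complex.one_re, Complex.zero_re] at h2
    norm_num at h2
  have h5 : ((z6 : ℂ) + 1) * ((z6 : ℂ) ^ 2 - z6 + 1) = 0 := by linear_combination h3
  exact (mul_eq_zero.1 h5).resolve_left h1

theorem z6_inv : (z6 : ℂ) ^ (-1 : ℤ) = 1 - z6 := by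
  have h := z6_quad
  have h0 : (z6 : ℂ) ≠ 0 := z6.ne_zero
  rw [zpow_neg_one]
  apply mul_left_cancel₀ h0
  rw [mul_inv_cancel₀ h0]
  linear_combination h

theorem z6_ne_one : (z6 : ℂ) ≠ 1 := by
  intro h
  have h1 := z6_quad
  rw [h] at h1
  norm_num at h1

theorem ev6_d : ev z6 (-T 2 - T (-2)) = 1 := by
  rw [map_sub, map_neg, Pool.Agent.Q99.ET.ev_T, Pool.Agent.Q99.ET.ev_T]
  have h1 : (z6 : ℂ) ^ (-2 : ℤ) = (1 - z6) ^ 2 := by
    rw [← z6_inv, ← zpow_natCast, ← zpow_mul]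
    norm_num
  have h2 : (z6 : ℂ) ^ (2 : ℤ) = (z6 : ℂ) ^ 2 := by norm_cast
  rw [h1, h2]
  linear_combination (-2 : ℂ) * z6_quad

theorem ev6_zf_one : ev z6 (zf 1) = 1 - z6 := by
  rw [ev_zf, zpow_one]
  have h1 : (z6 : ℂ) ^ (-4 : ℤ) = (1 - z6) ^ 4 := by
    rw [← z6_inv, ← zpow_natCast, ← zpow_mul]
    norm_num
  rw [h1]
  linear_combination (-(z6 : ℂ) ^ 2 + 3 * z6 - 2) * z6_quad

theorem T_weight {n : ℕ} (s : Fin n → Bool) : 
    (T (Diagram.weight s) : ℤ[T;T⁻¹]) = ∏ i, T (if s i then 1 else -1) := by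
  unfold Diagram.weight
  induction (Finset.univ : Finset (Fin n)) using Finset.induction_on with
  | empty => simp [T_zero]
  | insert a t ha ih => rw [Finset.sum_insert ha, Finset.prod_insert ha, T_add, ih]

/-- every bracket is `1` at `exp(π i/3)` -/
theorem ev6_bracket {P : Type} (D : Diagram P) : ev z6 D.bracket = 1 := by
  unfold Diagram.bracket
  rw [map_sum]
  have h1 : ∀ s : Fin D.crossings.length → Bool, ev z6 (T (Diagram.weight s) * 
      (-T 2 - T (-2)) ^ (D.loops s - 1)) = ∏ i, ev z6 (T (if s i then 1 else -1)) := by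
    intro s
    rw [map_mul, map_pow, ev6_d, one_pow, mul_one, T_weight, map_prod]
  rw [Finset.sum_congr rfl fun s _ => h1 s]
  have h2 := Finset.prod_univ_sum (fun _ : Fin D.crossings.length => (Finset.univ : Finset Bool)) 
    (fun _ b => ev z6 (T (if b then 1 else -1)))
  rw [Fintype.piFinset_univ] at h2
  rw [← h2]
  have h3 : ∑ b : Bool, ev z6 (T (if b then 1 else -1)) = 1 := by
    rw [Fintype.sum_bool, Pool.Agent.Q99.ET.ev_T, Pool.Agent.Q99.ET.ev_T]
    simp only [if_true, zpow_one]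
    have : (if (false : Bool) = true then (1 : ℤ) else -1) = -1 := rfl
    rw [this, z6_inv]
    ring
  rw [Finset.prod_congr rfl fun i _ => h3, Finset.prod_const_one]

theorem ev6_Zp (O : Sites k) (R : Finset (Fin k)) (hR : R ≠ Finset.univ) : 
    ev z6 (Pool.Agent.H891R2.SI.Zp O R) = 0 := by
  unfold Pool.Agent.H891R2.SI.Zp
  rw [map_sum]
  have h1 : ∀ S : Finset (Fin k), ev z6 ((-1) ^ (Rᶜ \ S).card * (-T 2 - T (-2)) ^ S.card * 
      (O.state S).std.bracket) = (∏ e ∈ S, (1 : ℂ)) * ∏ e ∈ Rᶜ \ S, (-1 : ℂ) := by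
    intro S
    rw [map_mul, map_mul, map_pow, map_pow, ev6_d, ev6_bracket, map_neg, map_one, Finset.prod_const, 
      Finset.prod_const, one_pow, mul_one, mul_one, one_mul]
  rw [Finset.sum_congr rfl fun S _ => h1 S, ← Finset.prod_add]
  have h2 : (Rᶜ).Nonempty := by
    rw [Finset.nonempty_iff_ne_empty]
    intro h
    exact hR (by rw [← compl_compl R, h, Finset.compl_empty])
  obtain ⟨e, he⟩ := h2
  exact Finset.prod_eq_zero he (by norm_num)

/-- **all clusters except one cancel** -/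
theorem exact_zero (O : Sites k) (hk : 0 < k) (hO : O.Connected) 
    (s : ℕ) (w : Fin k → ℤ) (lo : ℤ) (h : SIn (O.fill w).std.bracket lo (lo + 4 * s)) 
    (𝓒 : Finset (Finset (Fin k))) 
    (hC : ∀ P ∈ 𝓒, ∀ P' ∉ 𝓒, Pool.Agent.H891R2.SI.Zp O P ≠ 0 → Pool.Agent.H891R2.SI.Zp O P' ≠ 0 → 
      ¬ Close O s w P P') (hu : Finset.univ ∉ 𝓒) : 
    ∑ P ∈ 𝓒, zf (nS w P) * Pool.Agent.H891R2.SI.Zp O P = 0 := by
  classical
  set X : Finset (Finset (Fin k)) := Finset.univ.filter (fun P => Pool.Agent.H891R2.SI.Zp O P ≠ 0) with hX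
  have hXm : ∀ P, P ∈ X ↔ Pool.Agent.H891R2.SI.Zp O P ≠ 0 := fun P => by rw [hX]; simp
  have hX0 : ∀ a : Finset (Fin k) → ℤ, ∑ R, zf (a R) * Pool.Agent.H891R2.SI.Zp O R = 
      ∑ R ∈ X, zf (a R) * Pool.Agent.H891R2.SI.Zp O R := by
    intro a
    symm
    apply Finset.sum_subset (Finset.subset_univ _)
    intro R _ hR
    rw [hXm, not_not] at hR
    rw [hR, mul_zero]
  have hS3 := Pool.Agent.H891R2.SI.S3 O hk w
  set W : ℤ[T;T⁻¹] := (-T 2 - T (-2)) ^ k * T (- ∑ e, w e) * (O.fill w).std.bracket with hW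
  have hS3' : W = ∑ R ∈ X, zf (nS w R) * Pool.Agent.H891R2.SI.Zp O R := by
    rw [← hX0 (fun R => nS w R)]
    exact hS3
  have hG := ((SIn_d.pow k).mul (SIn.T (- ∑ e, w e))).mul h
  rw [← hW, hS3'] at hG
  set C : ℤ[T;T⁻¹] := ∑ P ∈ 𝓒, zf (nS w P) * Pool.Agent.H891R2.SI.Zp O P with hCdef
  -- the shifts by `t`
  have hshift : ∀ t : ℤ, ∃ y0 : ℤ, brk t * C = brk y0 * W := by
    intro t
    obtain ⟨y0, h0⟩ := cluster (Pool.Agent.H891R2.SI.Zp O) (3 * O.crossings.length + 4 * k) 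
      (3 * O.crossings.length + 6 * k + 2 * s) (4 * k + 4 * s) 
      (fun R => Pool.Agent.H891R2.SI.S4 O hO R) (by positivity) 
      (by positivity) (by linarith) (fun R => nS w R) (fun R => if R ∈ 𝓒 then t else 0) _ 
      X le_rfl _ (hG.mono le_rfl (by linarith)) 
      (fun S hS S' hS' hc => by
        show (if S ∈ 𝓒 then t else 0) = if S' ∈ 𝓒 then t else 0
        by_cases h1 : S ∈ 𝓒 <;> by_cases h2 : S' ∈ 𝓒
        · rw [if_pos h1, if_pos h2]
        · exact absurd hc (hC S h1 S' h2 ((hXm _).1 hS) ((hXm _).1 hS'))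
        · refine absurd ?_ (hC S' h2 S h1 ((hXm _).1 hS') ((hXm _).1 hS))
          unfold Close
          rw [abs_sub_comm]
          exact hc
        · rw [if_neg h1, if_neg h2])
    refine ⟨y0, ?_⟩
    have h1 : ∑ R ∈ X, zf (nS w R + if R ∈ 𝓒 then t else 0) * Pool.Agent.H891R2.SI.Zp O R - 
        ∑ R ∈ X, zf (nS w R) * Pool.Agent.H891R2.SI.Zp O R = (zf t - 1) * C := by
      rw [hCdef, ← hX0 (fun R => nS w R + if R ∈ 𝓒 then t else 0), ← hX0 (fun R => nS w R), 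
        ← Finset.sum_sub_distrib, Finset.mul_sum]
      have h2 : ∀ R, zf (nS w R + if R ∈ 𝓒 then t else 0) * Pool.Agent.H891R2.SI.Zp O R - 
          zf (nS w R) * Pool.Agent.H891R2.SI.Zp O R = if R ∈ 𝓒 then 
            (zf t - 1) * (zf (nS w R) * Pool.Agent.H891R2.SI.Zp O R) else 0 := by
        intro R
        split_ifs
        · rw [zf_add]; ring
        · rw [add_zero, sub_self]
      rw [Finset.sum_congr rfl fun R _ => h2 R, Finset.sum_ite_mem, Finset.univ_inter]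
    rw [h0, ← hS3', ← brk_mul] at h1
    apply mul_left_cancel₀ delta_ne
    have h7 := brk_mul y0
    linear_combination (-1 : ℤ[T;T⁻¹]) * h1 - W * h7
  -- values at `exp(π i/3)`
  have hW6 : ev z6 W ≠ 0 := by
    rw [hW, map_mul, map_mul, map_pow, ev6_d, one_pow, one_mul, ev6_bracket, mul_one, Pool.Agent.Q99.ET.ev_T]
    exact zpow_ne_zero _ z6.ne_zero
  have hW0 : W ≠ 0 := fun h => hW6 (by rw [h, map_zero])
  have hC6 : ev z6 C = 0 := by
    rw [hCdef, map_sum]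
    refine Finset.sum_eq_zero fun P hP => ?_
    rw [map_mul, ev6_Zp O P (fun h => hu (h ▸ hP)), mul_zero]
  by_contra hne
  obtain ⟨y1, h1⟩ := hshift 1
  obtain ⟨y2, h2⟩ := hshift 2
  have h3 : brk 2 * brk y1 = brk 1 * brk y2 := by
    apply mul_right_cancel₀ hW0
    linear_combination brk 1 * h2 - brk 2 * h1
  have hz : (zeta8 : ℂ) ^ (-2 : ℤ) ≠ 0 := zpow_ne_zero _ (Units.ne_zero _)
  have h4 : y2 = 2 * y1 := by
    have h5 := congrArg ev8 h3
    rw [map_mul, map_mul, ev8_brk, ev8_brk, ev8_brk, ev8_brk] at h5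
    have h6 : ((zeta8 : ℂ) ^ (-2 : ℤ) * (zeta8 : ℂ) ^ (-2 : ℤ)) * (2 * (y1 : ℂ)) = 
        ((zeta8 : ℂ) ^ (-2 : ℤ) * (zeta8 : ℂ) ^ (-2 : ℤ)) * (y2 : ℂ) := by
      push_cast at h5
      linear_combination h5
    have h7 := mul_left_cancel₀ (mul_ne_zero hz hz) h6
    have h8 : 2 * y1 = y2 := by exact_mod_cast h7
    exact h8.symm
  have hb1 : brk 1 ≠ 0 := by
    intro h
    have h5 := congrArg ev8 h
    rw [ev8_brk, map_zero] at h5
    simp at h5
  have hy1 : brk y1 ≠ 0 := by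
    intro h
    rw [h, zero_mul] at h1
    rcases mul_eq_zero.1 h1 with h5 | h5
    · exact hb1 h5
    · exact hne h5
  have e1 : zf 2 = zf 1 * zf 1 := by rw [← zf_add]; rfl
  have e2 : zf (2 * y1) = zf y1 * zf y1 := by rw [← zf_add]; congr 1; ring
  have f2 : brk 2 = brk 1 * (zf 1 + 1) := by
    apply mul_left_cancel₀ delta_ne
    rw [brk_mul, ← mul_assoc, brk_mul, e1]
    ring
  have f3 : brk y2 = brk y1 * (zf y1 + 1) := by
    apply mul_left_cancel₀ delta_ne
    rw [brk_mul, ← mul_assoc, brk_mul, h4, e2]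
    ring
  have h5 : zf 1 = zf y1 := by
    rw [f2, f3] at h3
    have h6 : (brk 1 * brk y1) * (zf 1 + 1) = (brk 1 * brk y1) * (zf y1 + 1) := by
      linear_combination h3
    have h7 := mul_left_cancel₀ (mul_ne_zero hb1 hy1) h6
    linear_combination h7
  have h6 : ev z6 (zf y1) = 1 := by
    have h7 := congrArg (ev z6) h1
    rw [map_mul, map_mul, hC6, mul_zero] at h7
    have h8 : ev z6 (brk y1) = 0 := (mul_eq_zero.1 h7.symm).resolve_right hW6
    have h9 := congrArg (ev z6) (brk_mul y1)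
    rw [map_mul, h8, mul_zero, map_sub, map_one] at h9
    linear_combination -h9
  rw [← h5, ev6_zf_one] at h6
  exact z6.ne_zero (by linear_combination -h6)

/-- the exceptional cluster -/
theorem exact_whole (O : Sites k) (hk : 0 < k) (hO : O.Connected) 
    (s : ℕ) (w : Fin k → ℤ) (lo : ℤ) (h : SIn (O.fill w).std.bracket lo (lo + 4 * s)) 
    (𝓒 : Finset (Finset (Fin k))) 
    (hC : ∀ P ∈ 𝓒, ∀ P' ∉ 𝓒, Pool.Agent.H891R2.SI.Zp O P ≠ 0 → Pool.Agent.H891R2.SI.Zp O P' ≠ 0 → 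
      ¬ Close O s w P P') (hu : Finset.univ ∈ 𝓒) : 
    ∑ P ∈ 𝓒, zf (nS w P) * Pool.Agent.H891R2.SI.Zp O P = 
      (-T 2 - T (-2)) ^ k * T (- ∑ e, w e) * (O.fill w).std.bracket := by
  classical
  have h1 := exact_zero O hk hO s w lo h 𝓒ᶜ (by
    intro P hP P' hP' h1 h2 hc
    rw [Finset.mem_compl] at hP
    rw [Finset.mem_compl, not_not] at hP'
    refine hC P' hP' P hP h2 h1 ?_
    unfold Close
    rw [abs_sub_comm]
    exact hc) (by rwa [Finset.mem_compl, not_not])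
  have h2 := Finset.sum_add_sum_compl 𝓒 (fun P => zf (nS w P) * Pool.Agent.H891R2.SI.Zp O P)
  rw [h1, add_zero] at h2
  rw [h2]
  exact (Pool.Agent.H891R2.SI.S3 O hk w).symm

end Pool.Agent.H32.CL
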