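import Pool.Agent.H32.CL.Exact

/-!
# Unions of cycles of boxes and the span of the Jones polynomial
-/

set_option autoImplicit false

namespace Pool.Agent.H32.CL

open Finset LaurentPolynomial Pool.Agent.H891R2.Jones Pool.Agent.H891R2.MT Pool.Agent.H891R2.SI T4b
open Pool.Agent.Y463.CD (zf brk brk_mul ev8_brk expand delta_ne zf_add zf_zero Close Small small_bracket ev8 
  ev8_d ev8_zf cluster SIn_zf_mul zeta8_ne coeff_add' ne_zero_coeff)
open Pool.Agent.H832R3.TW (FSpanLE)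
open Pool.Agent.Q99.ET

variable {k : ℕ}

/-- `O` is a connected closed diagram with at least one box; the connected pieces of the diagram `O.cut`, in
which all boxes are cut, have nonzero determinants (the bracket of `O.cut` is divisible by
`(-A^2-A^{-2})^(q-1)` for the number `q` of its pieces, but not by `(-A^2-A^{-2})^q`), and there are at least
as many boxes as pieces: the graph whose vertices are the pieces and whose edges are the boxes has a cycle -/
structure Adm (O : Sites k) : Prop where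
  pos : 0 < k
  conn : O.Connected
  closed : ∀ p, Even (degree O p)
  det : ¬ (-T 2 - T (-2)) ^ pcs O Finset.univ ∣ O.cut.std.bracket
  cycle : pcs O Finset.univ ≤ k

/-- the boxes of `K` form a union of cycles of the graph of the pieces: in the diagram in which exactly the
boxes outside `K` are cut, cutting one more box never increases the number of connected pieces -/
def Cyc (O : Sites k) (K : Finset (Fin k)) : Prop := ∀ e ∈ K, pcs O (insert e Kᶜ) = pcs O Kᶜ

/-- the first Betti number of the graph of the pieces, with only the edges in `K` -/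
noncomputable def betti (O : Sites k) (K : Finset (Fin k)) : ℕ := K.card + pcs O Kᶜ - pcs O Finset.univ

/-- the weight of `K`: the sum of `(-1)^|K \ F|` over the forests `F ⊆ K` -/
noncomputable def wt (O : Sites k) (K : Finset (Fin k)) : ℤ := 
  ∑ F ∈ K.powerset, if betti O F = 0 then (-1) ^ (K \ F).card else 0

theorem cN_pcs (O : Sites k) (hk : 0 < k) (hO : O.Connected) (K : Finset (Fin k)) : 
    cN O Kᶜ + pcs O Kᶜ + K.card = k + 1 := by
  have h1 := cN_eq O hk hO Kᶜ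
  have h2 := Finset.card_compl_add_card K
  rw [Fintype.card_fin] at h2
  unfold pcs
  omega

theorem betti_eq (O : Sites k) (hk : 0 < k) (hO : O.Connected) (K : Finset (Fin k)) : 
    betti O K + cN O Kᶜ = cN O Finset.univ := by
  have h1 := cN_pcs O hk hO K
  have h2 := cN_pcs O hk hO ∅
  rw [Finset.compl_empty, Finset.card_empty] at h2
  have h3 := (cN_rk O).mono (Finset.subset_univ Kᶜ)
  unfold betti
  omega

theorem cyc_iff (O : Sites k) (hk : 0 < k) (hO : O.Connected) (K : Finset (Fin k)) : 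
    Cyc O K ↔ IsFlat (cN O) Kᶜ := by
  have key : ∀ e ∈ K, (pcs O (insert e Kᶜ) = pcs O Kᶜ ↔ cN O (insert e Kᶜ) ≠ cN O Kᶜ) := by
    intro e he
    have h1 := cN_eq O hk hO Kᶜ
    have h2 := cN_eq O hk hO (insert e Kᶜ)
    have h3 := (cN_rk O).2.1 Kᶜ e
    rw [Finset.card_insert_of_notMem (by rwa [Finset.mem_compl, not_not])] at h2
    unfold pcs
    omega
  constructor
  · intro h e he
    rw [Finset.mem_compl, not_not] at he
    exact (key e he).1 (h e he)
  · intro h e he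
    exact (key e he).2 (h e (by rwa [Finset.mem_compl, not_not]))

theorem wt_eq (O : Sites k) (hk : 0 < k) (hO : O.Connected) (K : Finset (Fin k)) : 
    wt O K = phi (cN O) Kᶜ := by
  unfold wt phi
  rw [compl_compl]
  refine Finset.sum_congr rfl fun F _ => ?_
  have h1 := betti_eq O hk hO F
  have h2 : (betti O F = 0) ↔ (cN O Fᶜ = cN O Finset.univ) := by omega
  simp only [h2]

/-- the signs of the weights -/
theorem wt_pos (O : Sites k) (hk : 0 < k) (hO : O.Connected) (K : Finset (Fin k)) (hK : Cyc O K) : 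
    0 < (-1) ^ betti O K * wt O K := by
  rw [wt_eq O hk hO]
  have h1 := phi_pos (cN_rk O) _ ((cyc_iff O hk hO K).1 hK)
  have h2 := betti_eq O hk hO K
  have h3 : (-1 : ℤ) ^ (cN O Finset.univ + cN O Kᶜ) = (-1) ^ betti O K := by
    rw [← h2, add_assoc, pow_add, ← two_mul, pow_mul]
    simp
  rwa [h3] at h1

theorem wt_zero (O : Sites k) (hk : 0 < k) (hO : O.Connected) (K : Finset (Fin k)) (hK : ¬ Cyc O K) : 
    wt O K = 0 := by
  rw [wt_eq O hk hO]
  exact phi_zero (cN_rk O) _ (fun h => hK ((cyc_iff O hk hO K).2 h))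

theorem Adm.rank {O : Sites k} (h : Adm O) : 0 < cN O Finset.univ := by
  have h1 := cN_pcs O h.pos h.conn ∅
  rw [Finset.compl_empty, Finset.card_empty] at h1
  have := h.cycle
  omega

theorem Adm.g {O : Sites k} (h : Adm O) : 
    ∃ g : ℤ[T;T⁻¹], O.cut.std.bracket = (-T 2 - T (-2)) ^ (nc O ∅ - 1) * g ∧ ev8 g ≠ 0 := by
  refine exists_g O ?_ h.pos
  have h1 := h.det
  unfold pcs at h1
  rwa [Finset.compl_univ] at h1

theorem nS_compl (n : Fin k → ℤ) (K : Finset (Fin k)) : nS n Kᶜ = nS n Finset.univ - nS n K := by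
  have := Finset.sum_compl_add_sum K n
  unfold nS
  linarith

/-- the state polynomial of `K`: the boxes outside `K` are cut, every box of `K` is filled with `d` times two
vertical strands minus the cut box, `d = -A^2-A^{-2}` (that is, with `d` times the Jones-Wenzl projector) -/
noncomputable def W (O : Sites k) (K : Finset (Fin k)) : ℤ[T;T⁻¹] :=
  ∑ S ∈ K.powerset, (-1) ^ (K \ S).card * (-T 2 - T (-2)) ^ S.card * (O.state S).std.bracket

theorem W_eq (O : Sites k) (K : Finset (Fin k)) : W O K = Pool.Agent.H891R2.SI.Zp O Kᶜ := by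
  unfold W Pool.Agent.H891R2.SI.Zp
  rw [compl_compl]

/-- the state polynomials of the unions of cycles do not vanish -/
theorem Adm.W_ne {O : Sites k} (h : Adm O) (K : Finset (Fin k)) : W O K ≠ 0 ↔ Cyc O K := by
  rw [W_eq]
  constructor
  · intro h0
    by_contra hc
    exact h0 (Zp_zero O h.closed _ (fun hf => hc ((cyc_iff O h.pos h.conn K).2 hf)))
  · intro hc h0
    obtain ⟨g, hg, hg8⟩ := h.g
    choose G hG1 hG2 using state_value O h.pos h.conn h.closed g hg
    rw [Zp_HP O G hG1] at h0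
    have h1 : HP G Kᶜ = 0 := (mul_eq_zero.1 h0).resolve_left (pow_ne_zero _ delta_ne)
    have h2 := congrArg ev8 h1
    rw [ev8_HP O g G hG2, map_zero] at h2
    have h3 := phi_pos (cN_rk O) _ ((cyc_iff O h.pos h.conn K).1 hc)
    rcases mul_eq_zero.1 h2 with h4 | h4
    · have h5 : phi (cN O) Kᶜ = 0 := by exact_mod_cast h4
      rw [h5, mul_zero] at h3
      exact lt_irrefl _ h3
    · exact hg8 h4

/-- `𝓒` is far from all other sets `K'` with `W O K' ≠ 0` -/
def Far (O : Sites k) (X : ℤ) (n : Fin k → ℤ) (𝓒 : Finset (Finset (Fin k))) : Prop :=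
  ∀ K ∈ 𝓒, ∀ K' ∉ 𝓒, W O K ≠ 0 → W O K' ≠ 0 → X < 2 * |∑ e ∈ K, n e - ∑ e ∈ K', n e|

theorem close_compl (O : Sites k) (s : ℕ) (n : Fin k → ℤ) (K K' : Finset (Fin k)) : 
    Close O s n Kᶜ K'ᶜ ↔ 2 * |∑ e ∈ K, n e - ∑ e ∈ K', n e| ≤ 3 * O.crossings.length + 6 * k + 2 * s := by
  unfold Close
  rw [nS_compl, nS_compl]
  have h5 : nS n Finset.univ - nS n K - (nS n Finset.univ - nS n K') = 
    - (∑ e ∈ K, n e - ∑ e ∈ K', n e) := by
    show nS n Finset.univ - nS n K - (nS n Finset.univ - nS n K') = -(nS n K - nS n K')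
    ring
  rw [h5, abs_neg]

theorem zf_inv (a : ℤ) : zf a * zf (-a) = 1 := by
  rw [← zf_add, add_neg_cancel, zf_zero]

theorem shift_sum (O : Sites k) (n : Fin k → ℤ) (𝓒 : Finset (Finset (Fin k))) :
    ∑ P ∈ 𝓒.image compl, zf (nS n P) * Pool.Agent.H891R2.SI.Zp O P = 
      zf (nS n Finset.univ) * ∑ K ∈ 𝓒, zf (- ∑ e ∈ K, n e) * W O K := by
  rw [Finset.sum_image (fun _ _ _ _ h => compl_injective h), Finset.mul_sum]
  refine Finset.sum_congr rfl fun K _ => ?_
  rw [W_eq, nS_compl, ← mul_assoc, ← zf_add]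
  rfl

theorem far_image (O : Sites k) (s : ℕ) (n : Fin k → ℤ) (𝓒 : Finset (Finset (Fin k))) 
    (hC : Far O (3 * O.crossings.length + 6 * k + 2 * s) n 𝓒) : 
    ∀ P ∈ 𝓒.image compl, ∀ P' ∉ 𝓒.image compl, Pool.Agent.H891R2.SI.Zp O P ≠ 0 → 
      Pool.Agent.H891R2.SI.Zp O P' ≠ 0 → ¬ Close O s n P P' := by
  intro P hP P' hP' hf hf' hc
  obtain ⟨K, hK, rfl⟩ := Finset.mem_image.1 hP
  have hK' : P'ᶜ ∉ 𝓒 := fun h => hP' (Finset.mem_image.2 ⟨P'ᶜ, h, compl_compl _⟩)
  have e1 : W O K ≠ 0 := by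
    rw [W_eq]
    exact hf
  have e2 : W O P'ᶜ ≠ 0 := by
    rw [W_eq, compl_compl]
    exact hf'
  have h2 := hC K hK P'ᶜ hK' e1 e2
  rw [← compl_compl P'] at hc
  exact absurd ((close_compl O s n K P'ᶜ).1 hc) (not_le.2 h2)

/-- **exact cancellation** -/
theorem exact_cancel (O : Sites k) (hk : 0 < k) (hO : O.Connected) (s : ℕ) (n : Fin k → ℤ) 
    (hn : Small O s n) (𝓒 : Finset (Finset (Fin k))) 
    (hC : Far O (3 * O.crossings.length + 6 * k + 2 * s) n 𝓒) (h0 : ∅ ∉ 𝓒) : 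
    ∑ K ∈ 𝓒, zf (- ∑ e ∈ K, n e) * W O K = 0 := by
  classical
  obtain ⟨lo, hlo⟩ := small_bracket O hk s n hn
  have h1 := exact_zero O hk hO s n lo hlo (𝓒.image compl) (far_image O s n 𝓒 hC) (by
    intro h
    obtain ⟨K, hK, h2⟩ := Finset.mem_image.1 h
    have h3 : K = ∅ := by rw [← compl_compl K, h2, Finset.compl_univ]
    exact h0 (h3 ▸ hK))
  rw [shift_sum] at h1
  refine (mul_eq_zero.1 h1).resolve_left fun h => ?_
  have := zf_inv (nS n Finset.univ)
  rw [h, zero_mul] at this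
  exact zero_ne_one this

/-- **the exceptional family** -/
theorem exact_exceptional (O : Sites k) (hk : 0 < k) (hO : O.Connected) (s : ℕ) (n : Fin k → ℤ) 
    (hn : Small O s n) (𝓒 : Finset (Finset (Fin k))) 
    (hC : Far O (3 * O.crossings.length + 6 * k + 2 * s) n 𝓒) (h0 : ∅ ∈ 𝓒) : 
    zf (∑ e, n e) * ∑ K ∈ 𝓒, zf (- ∑ e ∈ K, n e) * W O K = 
      T (- ∑ e, n e) * ((-T 2 - T (-2)) ^ k * (O.fill n).std.bracket) := by
  classical
  obtain ⟨lo, hlo⟩ := small_bracket O hk s n hn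
  have h1 := exact_whole O hk hO s n lo hlo (𝓒.image compl) (far_image O s n 𝓒 hC) 
    (Finset.mem_image.2 ⟨∅, h0, Finset.compl_empty⟩)
  rw [shift_sum] at h1
  exact (show zf (∑ e, n e) * ∑ K ∈ 𝓒, zf (- ∑ e ∈ K, n e) * W O K = 
    zf (nS n Finset.univ) * ∑ K ∈ 𝓒, zf (- ∑ e ∈ K, n e) * W O K from rfl).trans (h1.trans (by ring))

/-- sets far from all other unions of cycles -/
def Sep (O : Sites k) (X : ℤ) (n : Fin k → ℤ) (𝓒 : Finset (Finset (Fin k))) : Prop :=
  ∀ K ∈ 𝓒, ∀ K' ∉ 𝓒, Cyc O K → Cyc O K' → X < 2 * |∑ e ∈ K, n e - ∑ e ∈ K', n e|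

/-- **the cluster criterion** -/
theorem Adm.cluster {O : Sites k} (h : Adm O) (s : ℕ) (n : Fin k → ℤ) (hn : Small O s n) 
    (𝓒 : Finset (Finset (Fin k))) (hC : Sep O (3 * O.crossings.length + 6 * k + 2 * s) n 𝓒) : 
    ∑ K ∈ 𝓒, wt O K = 0 := by
  classical
  obtain ⟨g, hg, hg8⟩ := h.g
  obtain ⟨lo, hlo⟩ := small_bracket O h.pos s n hn
  have h1 := cluster_sum O h.pos h.conn h.closed g hg hg8 s n lo hlo h.rank (𝓒.image compl) (by
    intro P hP P' hP' hf hf' hc
    obtain ⟨K, hK, rfl⟩ := Finset.mem_image.1 hP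
    have hK' : P'ᶜ ∉ 𝓒 := fun h => hP' (Finset.mem_image.2 ⟨P'ᶜ, h, compl_compl _⟩)
    have h2 := hC K hK P'ᶜ hK' ((cyc_iff O h.pos h.conn K).2 hf) 
      ((cyc_iff O h.pos h.conn _).2 (by rwa [compl_compl]))
    unfold Close at hc
    have h3 := nS_compl n K
    have h4 := nS_compl n P'ᶜ
    rw [compl_compl] at h4
    rw [h3, h4] at hc
    have h5 : nS n Finset.univ - nS n K - (nS n Finset.univ - nS n P'ᶜ) = 
      - (∑ e ∈ K, n e - ∑ e ∈ P'ᶜ, n e) := by
      show nS n Finset.univ - nS n K - (nS n Finset.univ - nS n P'ᶜ) = -(nS n K - nS n P'ᶜ)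
      ring
    rw [h5, abs_neg] at hc
    exact absurd hc (not_le.2 h2))
  rw [Finset.sum_image (fun _ _ _ _ h => compl_injective h)] at h1
  rw [← h1]
  exact Finset.sum_congr rfl fun K _ => wt_eq O h.pos h.conn K

/-- both parities -/
theorem Adm.parity {O : Sites k} (h : Adm O) (s : ℕ) (n : Fin k → ℤ) (hn : Small O s n) 
    (𝓒 : Finset (Finset (Fin k))) (hC : Sep O (3 * O.crossings.length + 6 * k + 2 * s) n 𝓒) 
    (K : Finset (Fin k)) (hK : K ∈ 𝓒) (hK' : Cyc O K) : 
    (∃ K₀ ∈ 𝓒, Cyc O K₀ ∧ Even (betti O K₀)) ∧ ∃ K₁ ∈ 𝓒, Cyc O K₁ ∧ Odd (betti O K₁) := by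
  have h1 := h.cluster s n hn 𝓒 hC
  constructor
  · by_contra hcon
    push Not at hcon
    have h2 : ∀ K ∈ 𝓒, 0 ≤ - wt O K := by
      intro K hK
      by_cases hc : Cyc O K
      · have h3 := wt_pos O h.pos h.conn K hc
        rw [(Nat.not_even_iff_odd.1 (hcon K hK hc)).neg_one_pow] at h3
        linarith
      · rw [wt_zero O h.pos h.conn K hc, neg_zero]
    have h3 : ∑ K ∈ 𝓒, - wt O K = 0 := by rw [Finset.sum_neg_distrib, h1, neg_zero]
    have h4 := (Finset.sum_eq_zero_iff_of_nonneg h2).1 h3 K hK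
    have h5 := wt_pos O h.pos h.conn K hK'
    rw [neg_eq_zero.1 h4, mul_zero] at h5
    exact lt_irrefl _ h5
  · by_contra hcon
    push Not at hcon
    have h2 : ∀ K ∈ 𝓒, 0 ≤ wt O K := by
      intro K hK
      by_cases hc : Cyc O K
      · have h3 := wt_pos O h.pos h.conn K hc
        rw [(Nat.not_odd_iff_even.1 (hcon K hK hc)).neg_one_pow] at h3
        linarith
      · rw [wt_zero O h.pos h.conn K hc]
    have h4 := (Finset.sum_eq_zero_iff_of_nonneg h2).1 h1 K hK
    have h5 := wt_pos O h.pos h.conn K hK'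
    rw [h4, mul_zero] at h5
    exact lt_irrefl _ h5

/-- an isolated union of cycles -/
theorem Adm.isolated {O : Sites k} (h : Adm O) (s : ℕ) (n : Fin k → ℤ) 
    (K : Finset (Fin k)) (hK : Cyc O K) (hC : ∀ K', Cyc O K' → K' ≠ K → 
      (3 * O.crossings.length + 6 * k + 2 * s : ℤ) < 2 * |∑ e ∈ K, n e - ∑ e ∈ K', n e|) : ¬ Small O s n := by
  intro hn
  have h1 := h.cluster s n hn {K} (by
    intro K1 hK1 K' hK' _ hc
    rw [Finset.mem_singleton] at hK1 hK'
    rw [hK1]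
    exact hC K' hc hK')
  rw [Finset.sum_singleton] at h1
  have h2 := wt_pos O h.pos h.conn K hK
  rw [h1, mul_zero] at h2
  exact lt_irrefl _ h2

/-! ### the signs -/

theorem sum_diff_min (n : Fin k → ℤ) (N K : Finset (Fin k)) (hN : ∀ e, e ∈ N ↔ n e < 0) : 
    ∑ e ∈ K, n e - ∑ e ∈ N, n e = ∑ e, if (e ∈ K ↔ e ∈ N) then 0 else |n e| := by
  classical
  rw [← Finset.univ_inter K, ← Finset.univ_inter N, ← Finset.sum_ite_mem, ← Finset.sum_ite_mem, 
    ← Finset.sum_sub_distrib]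
  refine Finset.sum_congr rfl fun e _ => ?_
  simp only [Finset.mem_inter, Finset.mem_univ, true_and]
  have h := hN e
  by_cases h1 : e ∈ K <;> by_cases h2 : e ∈ N
  · rw [if_pos h1, if_pos h2, if_pos (iff_of_true h1 h2), sub_self]
  · rw [if_pos h1, if_neg h2, if_neg (fun h => h2 (h.1 h1)), sub_zero, abs_of_nonneg]
    by_contra h3
    exact h2 (h.2 (not_le.1 h3))
  · rw [if_neg h1, if_pos h2, if_neg (fun h => h1 (h.2 h2)), zero_sub, abs_of_neg (h.1 h2)]
  · rw [if_neg h1, if_neg h2, if_pos (iff_of_false h1 h2), sub_self]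

/-- the negative boxes form a union of cycles -/
theorem Adm.neg {O : Sites k} (h : Adm O) (s : ℕ) (n : Fin k → ℤ) 
    (hn : ∀ e, (3 * O.crossings.length + 6 * k + 2 * s : ℤ) < 2 * |n e|) 
    (hK : Cyc O (Finset.univ.filter (fun e => n e < 0))) : ¬ Small O s n := by
  classical
  refine h.isolated s n _ hK ?_
  intro K' _ hne
  set N := Finset.univ.filter (fun e => n e < 0) with hN
  have hNm : ∀ e, e ∈ N ↔ n e < 0 := fun e => by rw [hN]; simp
  obtain ⟨e, he⟩ : ∃ e, ¬ (e ∈ K' ↔ e ∈ N) := by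
    by_contra hc
    push Not at hc
    exact hne (Finset.ext hc)
  rw [abs_sub_comm, sum_diff_min n N K' hNm]
  have h1 : |n e| ≤ ∑ e, if (e ∈ K' ↔ e ∈ N) then 0 else |n e| := by
    have h2 := Finset.single_le_sum (f := fun e => if (e ∈ K' ↔ e ∈ N) then 0 else |n e|) 
      (fun e _ => by split_ifs; exacts [le_rfl, abs_nonneg _]) (Finset.mem_univ e)
    rwa [if_neg he] at h2
  have h3 := hn e
  have h4 := le_abs_self (∑ e, if (e ∈ K' ↔ e ∈ N) then 0 else |n e|)
  linarith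

/-- the positive boxes form a union of cycles -/
theorem Adm.posi {O : Sites k} (h : Adm O) (s : ℕ) (n : Fin k → ℤ) 
    (hn : ∀ e, (3 * O.crossings.length + 6 * k + 2 * s : ℤ) < 2 * |n e|) 
    (hK : Cyc O (Finset.univ.filter (fun e => 0 < n e))) : ¬ Small O s n := by
  classical
  refine h.isolated s n _ hK ?_
  intro K' _ hne
  set N := Finset.univ.filter (fun e => 0 < n e) with hN
  have hNm : ∀ e, e ∈ N ↔ (-n) e < 0 := fun e => by rw [hN]; simp
  obtain ⟨e, he⟩ : ∃ e, ¬ (e ∈ K' ↔ e ∈ N) := by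
    by_contra hc
    push Not at hc
    exact hne (Finset.ext hc)
  have h0 := sum_diff_min (-n) N K' hNm
  simp only [Pi.neg_apply, Finset.sum_neg_distrib, abs_neg] at h0
  have h0' : ∑ e ∈ N, n e - ∑ e ∈ K', n e = ∑ e, if (e ∈ K' ↔ e ∈ N) then 0 else |n e| := by
    linarith
  rw [h0']
  have h1 : |n e| ≤ ∑ e, if (e ∈ K' ↔ e ∈ N) then 0 else |n e| := by
    have h2 := Finset.single_le_sum (f := fun e => if (e ∈ K' ↔ e ∈ N) then 0 else |n e|) 
      (fun e _ => by split_ifs; exacts [le_rfl, abs_nonneg _]) (Finset.mem_univ e)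
    rwa [if_neg he] at h2
  have h3 := hn e
  have h4 := le_abs_self (∑ e, if (e ∈ K' ↔ e ∈ N) then 0 else |n e|)
  linarith

/-- the general form for the signs -/
theorem isolated_ne (O : Sites k) (hk : 0 < k) (hO : O.Connected) (s : ℕ) (n : Fin k → ℤ) 
    (K : Finset (Fin k)) (hK0 : K ≠ ∅) (hK : W O K ≠ 0) (hC : ∀ K', K' ≠ K → W O K' ≠ 0 → 
      (3 * O.crossings.length + 6 * k + 2 * s : ℤ) < 2 * |∑ e ∈ K, n e - ∑ e ∈ K', n e|) : 
    ¬ Small O s n := by
  intro hn
  have h1 := exact_cancel O hk hO s n hn {K} (by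
    intro K1 hK1 K' hK' _ hc
    rw [Finset.mem_singleton] at hK1 hK'
    rw [hK1]
    exact hC K' hK' hc) (by
    rw [Finset.mem_singleton]
    exact fun h => hK0 h.symm)
  rw [Finset.sum_singleton] at h1
  rcases mul_eq_zero.1 h1 with h2 | h2
  · have := zf_inv (- ∑ e ∈ K, n e)
    rw [h2, zero_mul] at this
    exact zero_ne_one this
  · exact hK h2

theorem gap_min (n : Fin k → ℤ) (X : ℤ) (hX : ∀ e, X < 2 * |n e|) (K : Finset (Fin k)) 
    (hne : K ≠ Finset.univ.filter (fun e => n e < 0)) : 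
    X < 2 * |∑ e ∈ Finset.univ.filter (fun e => n e < 0), n e - ∑ e ∈ K, n e| := by
  classical
  set N := Finset.univ.filter (fun e => n e < 0) with hN
  have hNm : ∀ e, e ∈ N ↔ n e < 0 := fun e => by rw [hN]; simp
  obtain ⟨e, he⟩ : ∃ e, ¬ (e ∈ K ↔ e ∈ N) := by
    by_contra hc
    push Not at hc
    exact hne (Finset.ext hc)
  rw [abs_sub_comm, sum_diff_min n N K hNm]
  have h1 : |n e| ≤ ∑ e, if (e ∈ K ↔ e ∈ N) then 0 else |n e| := by
    have h2 := Finset.single_le_sum (f := fun e => if (e ∈ K ↔ e ∈ N) then 0 else |n e|) 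
      (fun e _ => by split_ifs; exacts [le_rfl, abs_nonneg _]) (Finset.mem_univ e)
    rwa [if_neg he] at h2
  have h3 := hX e
  have h4 := le_abs_self (∑ e, if (e ∈ K ↔ e ∈ N) then 0 else |n e|)
  linarith

theorem gap_max (n : Fin k → ℤ) (X : ℤ) (hX : ∀ e, X < 2 * |n e|) (K : Finset (Fin k)) 
    (hne : K ≠ Finset.univ.filter (fun e => 0 < n e)) : 
    X < 2 * |∑ e ∈ Finset.univ.filter (fun e => 0 < n e), n e - ∑ e ∈ K, n e| := by
  have h1 := gap_min (-n) X (fun e => by rw [Pi.neg_apply, abs_neg]; exact hX e) K (by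
    intro h
    apply hne
    rw [h]
    ext e
    simp)
  have h2 : (Finset.univ.filter (fun e => (-n) e < 0)) = Finset.univ.filter (fun e => 0 < n e) := by
    ext e
    simp
  rw [h2] at h1
  simp only [Pi.neg_apply, Finset.sum_neg_distrib] at h1
  rw [← abs_neg] at h1
  have h3 : -(-∑ e ∈ Finset.univ.filter (fun e => 0 < n e), n e - -∑ e ∈ K, n e) = 
    ∑ e ∈ Finset.univ.filter (fun e => 0 < n e), n e - ∑ e ∈ K, n e := by ring
  rwa [h3] at h1

/-- the span -/
theorem span_bound (O : Sites k) (hk : 0 < k) (hO : O.Connected) (s : ℕ) (n : Fin k → ℤ) 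
    (hn : ∀ e, (3 * O.crossings.length + 4 * k : ℤ) < 2 * |n e|) 
    (h1 : W O (Finset.univ.filter (fun e => n e < 0)) ≠ 0) 
    (h2 : W O (Finset.univ.filter (fun e => 0 < n e)) ≠ 0) (hs : Small O s n) : 
    2 * ∑ e, |n e| ≤ 3 * O.crossings.length + 6 * k + 2 * s := by
  classical
  obtain ⟨lo, hlo⟩ := small_bracket O hk s n hs
  have hG := ((SIn_d.pow k).mul (SIn.T (- ∑ e, n e))).mul hlo
  rw [Pool.Agent.H891R2.SI.S3 O hk n] at hG
  set N := Finset.univ.filter (fun e => n e < 0) with hN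
  set P := Finset.univ.filter (fun e => 0 < n e) with hP
  rw [W_eq] at h1 h2
  have hZ := fun R => Pool.Agent.H891R2.SI.S4 O hO R
  obtain ⟨j0, hj0⟩ := Pool.Agent.H891R2.SI.S6.exists_coeff h1
  obtain ⟨j1, hj1⟩ := Pool.Agent.H891R2.SI.S6.exists_coeff h2
  have hB0 := hZ _ j0 hj0
  have hB1 := hZ _ j1 hj1
  have key : ∀ (K R : Finset (Fin k)), nS n Kᶜ - nS n R = -(∑ e ∈ K, n e - ∑ e ∈ Rᶜ, n e) := by
    intro K R
    have h3 := nS_compl n K
    have h4 := nS_compl n Rᶜ
    rw [compl_compl] at h4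
    rw [h3, h4]
    show nS n Finset.univ - nS n K - (nS n Finset.univ - nS n Rᶜ) = -(nS n K - nS n Rᶜ)
    ring
  have c0 := Pool.Agent.H891R2.SI.S6.coeff_ne hZ n Nᶜ (by
    intro R hR
    have h3 := gap_min n _ hn Rᶜ (fun h => hR (by rw [hN, ← h, compl_compl]))
    rw [key, abs_neg]
    linarith) j0 hj0
  have c1 := Pool.Agent.H891R2.SI.S6.coeff_ne hZ n Pᶜ (by
    intro R hR
    have h3 := gap_max n _ hn Rᶜ (fun h => hR (by rw [hP, ← h, compl_compl]))
    rw [key, abs_neg]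
    linarith) j1 hj1
  have d0 := hG _ c0
  have d1 := hG _ c1
  have hsum : ∑ e, |n e| = nS n Nᶜ - nS n Pᶜ := by
    rw [nS_compl, nS_compl]
    have h3 : nS n Finset.univ - nS n N - (nS n Finset.univ - nS n P) = nS n P - nS n N := by ring
    rw [h3]
    unfold nS
    rw [hN, hP, Finset.sum_filter, Finset.sum_filter, ← Finset.sum_sub_distrib]
    refine Finset.sum_congr rfl fun e _ => ?_
    rcases lt_trichotomy (n e) 0 with h3 | h3 | h3
    · rw [if_neg (by omega), if_pos h3, abs_of_neg h3]; ring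
    · rw [if_neg (by omega), if_neg (by omega), h3, abs_zero]; ring
    · rw [if_pos h3, if_neg (by omega), abs_of_pos h3]; ring
  rw [hsum]
  linarith [d0.1, d0.2, d1.1, d1.2, hB0.1, hB0.2, hB1.1, hB1.2]

/-- the cut diagram alone -/
theorem cut_isolated (O : Sites k) (hk : 0 < k) (hO : O.Connected) (s : ℕ) (n : Fin k → ℤ) 
    (hC : ∀ K, K ≠ ∅ → W O K ≠ 0 → 
      (3 * O.crossings.length + 6 * k + 2 * s : ℤ) < 2 * |∑ e ∈ K, n e|) 
    (hd : ¬ (-T 2 - T (-2)) ^ k ∣ O.cut.std.bracket) : ¬ Small O s n := by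
  intro hn
  have h1 := exact_exceptional O hk hO s n hn {∅} (by
    intro K1 hK1 K' hK' _ hc
    rw [Finset.mem_singleton] at hK1 hK'
    rw [hK1, Finset.sum_empty, zero_sub, abs_neg]
    exact hC K' hK' hc) (Finset.mem_singleton_self _)
  rw [Finset.sum_singleton, Finset.sum_empty, neg_zero, zf_zero, one_mul] at h1
  have h2 : W O ∅ = O.cut.std.bracket := by
    unfold W
    rw [Finset.powerset_empty, Finset.sum_singleton, Finset.sdiff_self, Finset.card_empty, pow_zero, pow_zero, 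
      one_mul, one_mul]
    rfl
  rw [h2] at h1
  apply hd
  have h3 := zf_inv (∑ e, n e)
  refine ⟨zf (- ∑ e, n e) * (T (- ∑ e, n e) * (O.fill n).std.bracket), ?_⟩
  linear_combination zf (- ∑ e, n e) * h1 - O.cut.std.bracket * h3

/-- the span of the Jones polynomial -/
theorem fspan_iff (O : Sites k) (s : ℕ) (n : Fin k → ℤ) (D : Diagram (O.P ⊕ Ribbon.Pt n)) 
    (hD : Orients D (O.fill n)) (h : SpanAtMost s D) : Small O s n := ⟨D, hD, h⟩

theorem zf_coef (a : ℤ) : zf (-a) = (-1) ^ a.natAbs * T (4 * a) := by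
  show (-1 : ℤ[T;T⁻¹]) ^ (-a).natAbs * T (-4 * -a) = _
  rw [Int.natAbs_neg]
  congr 2
  ring

end Pool.Agent.H32.CL
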