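import Pool.Graph.R_pool_sql_team_seeded_3997aac3.Q99.ET.Rank

/-!
# The sum of `(-1)^|A|` over the spanning sets
-/

set_option autoImplicit false

namespace Pool.Agent.H32.CL

open Finset Pool.Agent.Q99.ET

variable {ι : Type} [DecidableEq ι]

/-- the sum of `(-1)^|A|` over the subsets `A` of `E` of rank `ρ` -/
def Fp (r : Finset ι → ℕ) (ρ : ℕ) (E : Finset ι) : ℤ :=
  ∑ A ∈ E.powerset, if r A = ρ then (-1) ^ A.card else 0

theorem Fp_insert (r : Finset ι → ℕ) (ρ : ℕ) (E : Finset ι) (e : ι) (he : e ∉ E) :
    Fp r ρ (insert e E) = Fp r ρ E + - ∑ A ∈ E.powerset, if r (insert e A) = ρ then (-1) ^ A.card else 0 := by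
  unfold Fp
  rw [Finset.sum_powerset_insert he, ← Finset.sum_neg_distrib]
  congr 1
  refine Finset.sum_congr rfl fun A hA => ?_
  have : e ∉ A := fun h => he (Finset.mem_powerset.1 hA h)
  rw [Finset.card_insert_of_notMem this]
  split_ifs
  · rw [pow_succ]; ring
  · ring

theorem Fp_zero (r : Finset ι → ℕ) (h : IsRk r) (ρ : ℕ) (E : Finset ι) (hE : r E < ρ) : Fp r ρ E = 0 := by
  unfold Fp
  refine Finset.sum_eq_zero fun A hA => ?_
  rw [if_neg]
  have := h.mono (Finset.mem_powerset.1 hA)
  omega

/-- loops -/
theorem Fp_loop (r : Finset ι → ℕ) (h : IsRk r) (ρ : ℕ) (E : Finset ι) (e : ι) (he : e ∈ E) (h0 : r {e} = 0) : 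
    Fp r ρ E = 0 := by
  have h1 : insert e (E.erase e) = E := Finset.insert_erase he
  rw [← h1, Fp_insert _ _ _ _ (Finset.notMem_erase _ _)]
  have h2 : ∀ A, r (insert e A) = r A := by
    intro A
    have h3 := h.cl ∅ e (by rw [h.1]; exact h0) A
    rwa [Finset.union_empty] at h3
  simp only [h2]
  unfold Fp
  ring

/-- **positivity** -/
theorem Fp_pos : ∀ (n : ℕ) (r : Finset ι → ℕ), IsRk r → ∀ E : Finset ι, E.card ≤ n → (∀ e ∈ E, r {e} = 1) →
    0 < (-1) ^ r E * Fp r (r E) E := by
  intro n
  induction n with
  | zero =>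
    intro r h E hE _
    have : E = ∅ := Finset.card_eq_zero.1 (by omega)
    subst this
    unfold Fp
    simp [h.1]
  | succ n ih =>
    intro r h E hE hl
    rcases E.eq_empty_or_nonempty with hE0 | ⟨e, he⟩
    · subst hE0
      unfold Fp
      simp [h.1]
    · set E' := E.erase e with hE'
      have hins : insert e E' = E := Finset.insert_erase he
      have he' : e ∉ E' := Finset.notMem_erase _ _
      have hc : E'.card ≤ n := by
        rw [hE', Finset.card_erase_of_mem he]; omega
      have hsub : ∀ f ∈ E', f ∈ E ∧ f ≠ e := fun f hf => 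
        ⟨Finset.mem_of_mem_erase hf, Finset.ne_of_mem_erase hf⟩
      have he1 := hl e he
      have hrc := h.contract e he1
      set re : Finset ι → ℕ := fun A => r (insert e A) - 1 with hre
      have hre1 : ∀ A, 1 ≤ r (insert e A) := by
        intro A
        rw [← he1]
        exact h.mono (by intro x hx; rw [Finset.mem_singleton.1 hx]; exact Finset.mem_insert_self _ _)
      have hreE : re E' + 1 = r E := by
        have := hre1 E'
        rw [hins] at this
        show r (insert e E') - 1 + 1 = r E
        rw [hins]; omega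
      have hsum : ∑ A ∈ E'.powerset, (if r (insert e A) = r E then (-1 : ℤ) ^ A.card else 0) =
          Fp re (re E') E' := by
        unfold Fp
        refine Finset.sum_congr rfl fun A _ => ?_
        have : (r (insert e A) = r E) ↔ (re A = re E') := by
          show r (insert e A) = r E ↔ r (insert e A) - 1 = re E'
          have := hre1 A
          omega
        simp only [this]
      have hexp : Fp r (r E) E = Fp r (r E) E' + - Fp re (re E') E' := by
        conv_lhs => rw [← hins]
        rw [Fp_insert _ _ _ _ he', hins, hsum]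
      have hpow : (-1 : ℤ) ^ r E = - (-1) ^ re E' := by
        rw [← hreE, pow_succ]; ring
      have hr1 := h.2.1 E' e
      rw [hins] at hr1
      have ih1 := ih r h E' hc (fun f hf => hl f (hsub f hf).1)
      by_cases hp : ∃ f ∈ E', re {f} = 0
      · -- a parallel element
        obtain ⟨f, hf, hf0⟩ := hp
        have h0 := Fp_loop re hrc (re E') E' f hf hf0
        have hEE : r E' = r E := by
          apply le_antisymm hr1.1
          have h1 : r (insert e {f}) = r {f} := by
            have h2 : r (insert e {f}) - 1 = 0 := hf0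
            have h3 := hre1 {f}
            rw [hl f (hsub f hf).1]
            omega
          have h4 := h.cl {f} e h1 E'
          have h5 : E' ∪ {f} = E' := by
            rw [Finset.union_eq_left]
            intro x hx
            rw [Finset.mem_singleton.1 hx]
            exact hf
          rw [h5, hins] at h4
          exact h4.le
        rw [hexp, h0, neg_zero, add_zero, ← hEE]
        exact ih1
      · push Not at hp
        have hl' : ∀ f ∈ E', re {f} = 1 := by
          intro f hf
          have h1 := hp f hf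
          have h2 := (hrc.2.1 ∅ f).2
          rw [hrc.1] at h2
          have h3 : (insert f ∅ : Finset ι) = {f} := rfl
          rw [h3] at h2
          omega
        have ih2 := ih re hrc E' hc hl'
        rw [hexp, mul_add]
        have h3 : (-1 : ℤ) ^ r E * (- Fp re (re E') E') = (-1) ^ re E' * Fp re (re E') E' := by
          rw [hpow]; ring
        rw [h3]
        rcases Nat.lt_or_ge (r E') (r E) with hlt | hge
        · rw [Fp_zero r h (r E) E' hlt, mul_zero, zero_add]
          exact ih2
        · have hEE : r E' = r E := le_antisymm hr1.1 hge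
          rw [hEE] at ih1
          linarith

/-- contraction of a set -/
theorem IsRk_contract {r : Finset ι → ℕ} (h : IsRk r) (P : Finset ι) : IsRk (fun A => r (A ∪ P) - r P) := by
  have h1 : ∀ A, r P ≤ r (A ∪ P) := fun A => h.mono Finset.subset_union_right
  refine ⟨by simp, ?_, ?_⟩
  · intro A e
    simp only
    rw [Finset.insert_union]
    have h2 := h.2.1 (A ∪ P) e
    have h3 := h1 A
    omega
  · intro A e f he hf
    simp only at he hf ⊢
    rw [Finset.insert_union] at he hf ⊢
    rw [Finset.insert_union]
    have h2 := h.2.1 (A ∪ P) e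
    have h3 := h.2.1 (A ∪ P) f
    have h4 := h1 A
    rw [h.2.2 (A ∪ P) e f (by omega) (by omega)]

/-- the signed number of the sets of full rank which contain `P` -/
def phi (r : Finset ι → ℕ) [Fintype ι] (P : Finset ι) : ℤ :=
  ∑ S ∈ (Pᶜ).powerset, if r Sᶜ = r Finset.univ then (-1) ^ (Pᶜ \ S).card else 0

theorem phi_eq [Fintype ι] {r : Finset ι → ℕ} (h : IsRk r) (P : Finset ι) : 
    phi r P = Fp (fun A => r (A ∪ P) - r P) (r Finset.univ - r P) Pᶜ := by
  unfold phi Fp
  refine Finset.sum_bij' (fun S _ => Pᶜ \ S) (fun A _ => Pᶜ \ A) ?_ ?_ ?_ ?_ ?_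
  · intro S _
    exact Finset.mem_powerset.2 Finset.sdiff_subset
  · intro S _
    exact Finset.mem_powerset.2 Finset.sdiff_subset
  · intro S hS
    exact Finset.sdiff_sdiff_eq_self (Finset.mem_powerset.1 hS)
  · intro S hS
    exact Finset.sdiff_sdiff_eq_self (Finset.mem_powerset.1 hS)
  · intro S hS
    have h1 : (Pᶜ \ S) ∪ P = Sᶜ := by
      ext x
      have : x ∈ S → x ∈ Pᶜ := fun hx => Finset.mem_powerset.1 hS hx
      simp only [Finset.mem_union, Finset.mem_sdiff, Finset.mem_compl] at this ⊢
      tauto
    have h2 : (r Sᶜ = r Finset.univ) ↔ (r ((Pᶜ \ S) ∪ P) - r P = r Finset.univ - r P) := by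
      rw [h1]
      have h3 : r P ≤ r Sᶜ := h.mono (by rw [← h1]; exact Finset.subset_union_right)
      have h4 : r P ≤ r Finset.univ := h.mono (Finset.subset_univ _)
      omega
    simp only [h2]

/-- a flat: a set which is not spanned by a smaller set of the same rank -/
def IsFlat (r : Finset ι → ℕ) (P : Finset ι) : Prop := ∀ e, e ∉ P → r (insert e P) ≠ r P

theorem phi_pos [Fintype ι] {r : Finset ι → ℕ} (h : IsRk r) (P : Finset ι) (hP : IsFlat r P) : 
    0 < (-1) ^ (r Finset.univ + r P) * phi r P := by
  rw [phi_eq h]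
  have h1 := Fp_pos (Pᶜ).card _ (IsRk_contract h P) Pᶜ le_rfl (by
    intro e he
    have h2 := hP e (Finset.mem_compl.1 he)
    have h3 := h.2.1 P e
    have h4 : ({e} : Finset ι) ∪ P = insert e P := rfl
    show r ({e} ∪ P) - r P = 1
    rw [h4]
    omega)
  have h5 : Pᶜ ∪ P = Finset.univ := by
    rw [Finset.union_comm]
    exact Finset.union_compl P
  simp only [h5] at h1
  have h6 : r P ≤ r Finset.univ := h.mono (Finset.subset_univ _)
  have h7 : (-1 : ℤ) ^ (r Finset.univ + r P) = (-1) ^ (r Finset.univ - r P) := by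
    have : r Finset.univ + r P = (r Finset.univ - r P) + 2 * r P := by omega
    rw [this, pow_add, pow_mul]
    simp
  rw [h7]
  exact h1

theorem phi_zero [Fintype ι] {r : Finset ι → ℕ} (h : IsRk r) (P : Finset ι) (hP : ¬ IsFlat r P) : 
    phi r P = 0 := by
  unfold IsFlat at hP
  push Not at hP
  obtain ⟨e, he, h0⟩ := hP
  rw [phi_eq h]
  refine Fp_loop _ (IsRk_contract h P) _ _ e (Finset.mem_compl.2 he) ?_
  have h4 : ({e} : Finset ι) ∪ P = insert e P := rfl
  show r ({e} ∪ P) - r P = 0
  rw [h4, h0, Nat.sub_self]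

end Pool.Agent.H32.CL
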