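import Pool.Agent.H32.CL.Rank
import Pool.Graph.R_pool_sql_team_seeded_3997aac3.Q99.ET.Main2

/-!
# Clusters of states near `d = 0`
-/

set_option autoImplicit false

namespace Pool.Agent.H32.CL

open Finset LaurentPolynomial Pool.Agent.H891R2.Jones Pool.Agent.H891R2.MT Pool.Agent.H891R2.SI T4b
open Pool.Agent.Y463.CD (zf brk brk_mul ev8_brk expand delta_ne zf_add zf_zero Close ev8 ev8_d ev8_zf cluster 
  SIn_zf_mul zeta8_ne coeff_add' ne_zero_coeff)
open Pool.Agent.Q99.ET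

variable {k : ℕ}

/-- a box which separates a piece of the diagram in which the boxes of `P` are cut -/
theorem bridge_of (O : Sites k) (P : Finset (Fin k)) (e : Fin k) (he : e ∉ P) 
    (h : cN O (insert e P) = cN O P) : nc O (insert e P)ᶜ = nc O Pᶜ + 1 := by
  have h1 := rH_add O (insert e P)ᶜ
  have h2 := rH_add O Pᶜ
  have h3 := rH_add O Finset.univ
  have h5 : rH O Finset.univ ≤ (insert e P).card + rH O (insert e P)ᶜ := by
    have h3 := (rH_rk O).le_card (insert e P)ᶜ (insert e P)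
    rw [Finset.union_compl] at h3
    omega
  have h6 : rH O Finset.univ ≤ P.card + rH O Pᶜ := by
    have h3 := (rH_rk O).le_card Pᶜ P
    rw [Finset.union_compl] at h3
    omega
  unfold cN at h
  rw [Finset.card_insert_of_notMem he] at h h5
  omega

/-- the states with a bridge cancel -/
theorem Zp_zero (O : Sites k) (hd : ∀ p, Even (degree O p)) (P : Finset (Fin k)) 
    (hP : ¬ IsFlat (cN O) P) : Pool.Agent.H891R2.SI.Zp O P = 0 := by
  classical
  unfold IsFlat at hP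
  push Not at hP
  obtain ⟨e, he, h0⟩ := hP
  have h1 := bridge_of O P e he h0
  set E := (insert e P)ᶜ with hE
  have heE : e ∉ E := by rw [hE, Finset.mem_compl, not_not]; exact Finset.mem_insert_self _ _
  have hEe : insert e E = Pᶜ := by
    rw [hE, Finset.compl_insert, Finset.insert_erase (Finset.mem_compl.2 he)]
  rw [← hEe] at h1
  have hne : Quot.mk (CR O E) (O.corner e false true) ≠ Quot.mk (CR O E) (O.corner e true true) := by
    rcases nc_insert O E e with ⟨_, h⟩ | ⟨h, _⟩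
    · omega
    · exact h
  unfold Pool.Agent.H891R2.SI.Zp
  rw [← hEe, Finset.sum_powerset_insert heE, ← Finset.sum_add_distrib]
  refine Finset.sum_eq_zero fun S hS => ?_
  have hSE := Finset.mem_powerset.1 hS
  have heS : e ∉ S := fun h => heE (hSE h)
  have hneS : Quot.mk (CR O S) (O.corner e false true) ≠ Quot.mk (CR O S) (O.corner e true true) := by
    intro h
    apply hne
    exact congrArg (Quot.lift (fun p => Quot.mk (CR O E) p) 
      (fun p q h => Quot.sound (CR_mono O hSE p q h))) h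
  have h2 := bracket_glue O hd S e heS hneS
  have h3 : (insert e E \ S).card = (insert e E \ insert e S).card + 1 := by
    have h4 : insert e E \ S = insert e (insert e E \ insert e S) := by
      ext x
      simp only [Finset.mem_sdiff, Finset.mem_insert]
      by_cases hx : x = e
      · subst hx; simp [heS]
      · simp [hx]
    rw [h4, Finset.card_insert_of_notMem]
    simp
  rw [h3, Finset.card_insert_of_notMem heS, pow_succ, pow_succ, ← h2]
  ring

/-- the normalised combination -/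
noncomputable def HP (G : Finset (Fin k) → ℤ[T;T⁻¹]) (P : Finset (Fin k)) : ℤ[T;T⁻¹] :=
  ∑ S ∈ (Pᶜ).powerset, (-1) ^ (Pᶜ \ S).card * G Sᶜ

theorem Zp_HP (O : Sites k) (G : Finset (Fin k) → ℤ[T;T⁻¹]) 
    (hG : ∀ R, (-T 2 - T (-2)) ^ (Rᶜ).card * (O.state Rᶜ).std.bracket = (-T 2 - T (-2)) ^ (nc O ∅ - 1) * G R) 
    (P : Finset (Fin k)) : Pool.Agent.H891R2.SI.Zp O P = (-T 2 - T (-2)) ^ (nc O ∅ - 1) * HP G P := by
  unfold Pool.Agent.H891R2.SI.Zp HP
  rw [Finset.mul_sum]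
  refine Finset.sum_congr rfl fun S _ => ?_
  have h := hG Sᶜ
  rw [compl_compl] at h
  linear_combination ((-1) ^ (Pᶜ \ S).card : ℤ[T;T⁻¹]) * h

theorem ev8_HP (O : Sites k) (g : ℤ[T;T⁻¹]) (G : Finset (Fin k) → ℤ[T;T⁻¹]) 
    (hG : ∀ R, ev8 (G R) = if cN O R = cN O Finset.univ then ev8 g else 0) (P : Finset (Fin k)) : 
    ev8 (HP G P) = (phi (cN O) P : ℂ) * ev8 g := by
  unfold HP phi
  rw [map_sum]
  push_cast
  rw [Finset.sum_mul]
  refine Finset.sum_congr rfl fun S _ => ?_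
  rw [map_mul, map_pow, map_neg, map_one, hG]
  split_ifs <;> simp

/-- no flat of `𝓒` is near a flat outside `𝓒` -/
def Closed (O : Sites k) (s : ℕ) (w : Fin k → ℤ) (𝓒 : Finset (Finset (Fin k))) : Prop :=
  ∀ P ∈ 𝓒, ∀ P' ∉ 𝓒, IsFlat (cN O) P → IsFlat (cN O) P' → ¬ Close O s w P P'

/-- the value of the sum of a cluster at `exp(π i/4)` -/
theorem cluster_ev (O : Sites k) (g : ℤ[T;T⁻¹]) (G : Finset (Fin k) → ℤ[T;T⁻¹]) 
    (hG : ∀ R, ev8 (G R) = if cN O R = cN O Finset.univ then ev8 g else 0) (w : Fin k → ℤ) 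
    (𝓒 : Finset (Finset (Fin k))) : 
    ev8 (∑ P ∈ 𝓒, zf (nS w P) * HP G P) = ((∑ P ∈ 𝓒, phi (cN O) P : ℤ) : ℂ) * ev8 g := by
  rw [map_sum]
  push_cast
  rw [Finset.sum_mul]
  refine Finset.sum_congr rfl fun P _ => ?_
  rw [map_mul, ev8_zf, one_mul, ev8_HP O g G hG]

/-- **the cluster criterion** -/
theorem cluster_sum (O : Sites k) (hk : 0 < k) (hO : O.Connected) (hd : ∀ p, Even (degree O p)) 
    (g : ℤ[T;T⁻¹]) (hg : O.cut.std.bracket = (-T 2 - T (-2)) ^ (nc O ∅ - 1) * g) (hg8 : ev8 g ≠ 0)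
    (s : ℕ) (w : Fin k → ℤ) (lo : ℤ) (h : SIn (O.fill w).std.bracket lo (lo + 4 * s)) 
    (hp : 0 < cN O Finset.univ) (𝓒 : Finset (Finset (Fin k))) (hC : Closed O s w 𝓒) :
    ∑ P ∈ 𝓒, phi (cN O) P = 0 := by
  classical
  choose G hG1 hG2 using state_value O hk hO hd g hg
  set X : Finset (Finset (Fin k)) := Finset.univ.filter (fun P => IsFlat (cN O) P) with hX
  have hXm : ∀ P, P ∈ X ↔ IsFlat (cN O) P := fun P => by rw [hX]; simp
  have hX0 : ∀ a : Finset (Fin k) → ℤ, ∑ R, zf (a R) * Pool.Agent.H891R2.SI.Zp O R = 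
      ∑ R ∈ X, zf (a R) * Pool.Agent.H891R2.SI.Zp O R := by
    intro a
    symm
    apply Finset.sum_subset (Finset.subset_univ _)
    intro R _ hR
    rw [hXm] at hR
    rw [Zp_zero O hd R hR, mul_zero]
  have hS3 := Pool.Agent.H891R2.SI.S3 O hk w
  have hS3' : (-T 2 - T (-2)) ^ k * T (- ∑ e, w e) * (O.fill w).std.bracket = 
      ∑ R ∈ X, zf (nS w R) * Pool.Agent.H891R2.SI.Zp O R := by
    rw [← hX0 (fun R => nS w R)]
    exact hS3
  have hG := ((SIn_d.pow k).mul (SIn.T (- ∑ e, w e))).mul h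
  rw [hS3'] at hG
  obtain ⟨y0, h0⟩ := cluster (Pool.Agent.H891R2.SI.Zp O) (3 * O.crossings.length + 4 * k) 
    (3 * O.crossings.length + 6 * k + 2 * s) (4 * k + 4 * s) 
    (fun R => Pool.Agent.H891R2.SI.S4 O hO R) (by positivity) 
    (by positivity) (by linarith) (fun R => nS w R) (fun R => if R ∈ 𝓒 then 1 else 0) _ 
    X le_rfl _ (hG.mono le_rfl (by linarith)) 
    (fun S hS S' hS' hc => by
      show (if S ∈ 𝓒 then (1 : ℤ) else 0) = if S' ∈ 𝓒 then 1 else 0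
      by_cases h1 : S ∈ 𝓒 <;> by_cases h2 : S' ∈ 𝓒
      · rw [if_pos h1, if_pos h2]
      · exact absurd hc (hC S h1 S' h2 ((hXm _).1 hS) ((hXm _).1 hS'))
      · refine absurd ?_ (hC S' h2 S h1 ((hXm _).1 hS') ((hXm _).1 hS))
        unfold Close
        rw [abs_sub_comm]
        exact hc
      · rw [if_neg h1, if_neg h2])
  -- the cluster
  have h1 : ∑ R ∈ X, zf (nS w R + if R ∈ 𝓒 then 1 else 0) * Pool.Agent.H891R2.SI.Zp O R - 
      ∑ R ∈ X, zf (nS w R) * Pool.Agent.H891R2.SI.Zp O R = 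
      (zf 1 - 1) * ∑ R ∈ 𝓒, zf (nS w R) * Pool.Agent.H891R2.SI.Zp O R := by
    rw [← hX0 (fun R => nS w R + if R ∈ 𝓒 then 1 else 0), ← hX0 (fun R => nS w R), 
      ← Finset.sum_sub_distrib, Finset.mul_sum]
    have h2 : ∀ R, zf (nS w R + if R ∈ 𝓒 then 1 else 0) * Pool.Agent.H891R2.SI.Zp O R - 
        zf (nS w R) * Pool.Agent.H891R2.SI.Zp O R = if R ∈ 𝓒 then 
          (zf 1 - 1) * (zf (nS w R) * Pool.Agent.H891R2.SI.Zp O R) else 0 := by
      intro R
      split_ifs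
      · rw [zf_add]; ring
      · rw [add_zero, sub_self]
    rw [Finset.sum_congr rfl fun R _ => h2 R, Finset.sum_ite_mem, Finset.univ_inter]
  have h2 : ∀ R, Pool.Agent.H891R2.SI.Zp O R = (-T 2 - T (-2)) ^ (nc O ∅ - 1) * HP G R := 
    fun R => Zp_HP O G hG1 R
  have h3 : ∑ R ∈ 𝓒, zf (nS w R) * Pool.Agent.H891R2.SI.Zp O R = 
      (-T 2 - T (-2)) ^ (nc O ∅ - 1) * ∑ R ∈ 𝓒, zf (nS w R) * HP G R := by
    rw [Finset.mul_sum]
    refine Finset.sum_congr rfl fun R _ => ?_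
    rw [h2]
    ring
  have h4 := cN_univ O hk hO
  have h5 : brk 1 * ∑ R ∈ 𝓒, zf (nS w R) * HP G R = 
      brk y0 * ((-T 2 - T (-2)) ^ cN O Finset.univ * (T (- ∑ e, w e) * (O.fill w).std.bracket)) := by
    have h6 : ((-T 2 - T (-2)) ^ (nc O ∅ - 1) : ℤ[T;T⁻¹]) ≠ 0 := pow_ne_zero _ delta_ne
    apply mul_left_cancel₀ h6
    apply mul_left_cancel₀ delta_ne
    have h8 : ((-T 2 - T (-2)) ^ k : ℤ[T;T⁻¹]) = (-T 2 - T (-2)) ^ cN O Finset.univ * 
        (-T 2 - T (-2)) ^ (nc O ∅ - 1) := by rw [← pow_add, h4]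
    rw [h0, h3, ← brk_mul, ← hS3', h8] at h1
    have h7 := brk_mul y0
    linear_combination (-1 : ℤ[T;T⁻¹]) * h1 - ((-T 2 - T (-2)) ^ cN O Finset.univ * 
      (-T 2 - T (-2)) ^ (nc O ∅ - 1) * (T (- ∑ e, w e) * (O.fill w).std.bracket)) * h7
  have h6 := congrArg ev8 h5
  rw [map_mul, map_mul, map_mul, map_pow, ev8_d, zero_pow hp.ne', zero_mul, mul_zero, 
    cluster_ev O g G hG2, ev8_brk] at h6
  have h7 : (zeta8 : ℂ) ^ (-2 : ℤ) ≠ 0 := zpow_ne_zero _ (Units.ne_zero _)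
  have h8 : ((∑ P ∈ 𝓒, phi (cN O) P : ℤ) : ℂ) = 0 := by
    rcases mul_eq_zero.1 h6 with h9 | h9
    · exfalso
      rcases mul_eq_zero.1 h9 with h9 | h9
      · exact h7 h9
      · norm_num at h9
    · exact (mul_eq_zero.1 h9).resolve_right hg8
  exact_mod_cast h8

end Pool.Agent.H32.CL
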